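import Pool.Agent.H33.PpcDefs
import Pool.Agent.H33.EnergyDefs
import Pool.Agent.H33.Ppc4

namespace Pool.Agent.Results.MP_1f5025_nt.Q2

open Filter Finset Pool.Agent.H33 Pool.Agent.H33.Ppc Pool.Agent.H33.Ppc4

lemma energy_ap (a : ℕ → ℕ) (S L N M w d : ℕ) (hN : S + L ≤ N) (hM : 2 * M ≤ L)
    (h : ∀ i < L, a (S + i) = w + i * d) : M ^ 3 ≤ energyN a N := by
  calc M ^ 3 = (range M ×ˢ range M ×ˢ range M).card := by simp; ring
    _ ≤ _ := by
      apply card_le_card_of_injOn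
        (fun p => (S + p.1, S + (p.2.1 + p.2.2), S + (p.1 + p.2.1), S + p.2.2))
      · rintro ⟨x, y, z⟩ hp
        simp only [coe_product, coe_range, Set.mem_prod, Set.mem_Iio] at hp
        simp only [coe_filter, mem_product, mem_range, Set.mem_ofPred_eq]
        refine ⟨⟨by omega, by omega, by omega, by omega⟩, ?_⟩
        rw [h _ (by omega), h _ (by omega), h _ (by omega), h _ (by omega)]
        ring
      · rintro ⟨x, y, z⟩ _ ⟨x', y', z'⟩ _ hp
        simp only [Prod.mk.injEq] at hp ⊢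
        omega

theorem result (ψ : ℕ → ℝ) (hψ : Tendsto ψ atTop atTop) (α : ℝ) (hα : Irrational α) :
    ∃ a : ℕ → ℕ, StrictMono a ∧ (∀ n, 0 < a n) ∧
      (∃ c : ℝ, 0 < c ∧ ∃ᶠ N : ℕ in atTop, c * ((N : ℝ) ^ 3 / ψ N) ≤ (energyN a N : ℝ)) ∧
      PPC (fun n => Int.fract ((a n : ℝ) * α)) := by
  choose g hg using fun j => eventually_atTop.mp (hψ.eventually_ge_atTop ((K j : ℝ) ^ 3))
  letI : Gr := ⟨g⟩
  obtain ⟨a, h1, -, h3, h4, h5⟩ := Ppc4.main α hα
  refine ⟨a, h1, h4, ⟨1 / 27, by norm_num, ?_⟩, h3⟩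
  have h2 : Tendsto (fun j => K (j + 1) * L (j + 1)) atTop atTop := by
    refine tendsto_atTop_mono (fun j => ?_) (tendsto_rt.comp (tendsto_add_atTop_nat 1))
    have := Nat.le_mul_of_pos_right (K (j + 1)) (L_pos (j + 1))
    unfold K at this ⊢
    simp only [Function.comp]
    omega
  refine h2.frequently (Eventually.of_forall fun j => ?_).frequently
  obtain ⟨w, d, hw⟩ := h5 (j + 1)
  have hL2 : 2 ≤ L (j + 1) := by
    have := Nat.mul_le_mul (show 2 ≤ T (j + 1) by simp [T]) (Q_pos (j + 1))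
    exact this
  have e := energy_ap a _ _ _ (L (j + 1) / 2) w d (SL (j + 1)).le (Nat.mul_div_le _ _) hw
  have hK : 1 ≤ K (j + 1) := by simp [K]
  have hψ' := hg (j + 1) (K (j + 1) * L (j + 1))
    ((g_le j).trans (Nat.le_mul_of_pos_left _ hK))
  have hK' : (1 : ℝ) ≤ K (j + 1) := by exact_mod_cast hK
  have e2 : L (j + 1) ^ 3 ≤ 27 * energyN a (K (j + 1) * L (j + 1)) := by
    have : L (j + 1) ^ 3 ≤ (3 * (L (j + 1) / 2)) ^ 3 := Nat.pow_le_pow_left (by omega) 3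
    rw [mul_pow] at this
    omega
  have e3 : (L (j + 1) : ℝ) ^ 3 ≤ 27 * energyN a (K (j + 1) * L (j + 1)) := by exact_mod_cast e2
  have e4 : (((K (j + 1) * L (j + 1) : ℕ) : ℝ)) ^ 3 / ψ (K (j + 1) * L (j + 1)) ≤
      (L (j + 1) : ℝ) ^ 3 := by
    rw [div_le_iff₀ (lt_of_lt_of_le (by positivity) hψ'), Nat.cast_mul, mul_pow, mul_comm]
    gcongr
  linarith

end Pool.Agent.Results.MP_1f5025_nt.Q2
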